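import Pool.Agent.U722.FF.Stm4
import Pool.Agent.Helper970.V7.P_v7_succ

/-!
# Project LB, package ML2 (helper129): exactness over the localisation gives the vanishing of the
`L²`-Betti number
-/

set_option autoImplicit false
set_option linter.all false

open scoped ENNReal Matrix

noncomputable section

namespace Pool.Agent.U129.LBP

open Pool.Agent.Helper655.VN Pool.Agent.RK VN831

attribute [local instance] VN831.bcFunctor_additive VN831.viaAdd VN831.viaMod V7N.bcF_additive
  V7N.rmAdd V7N.rmMod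

/-- common left denominators, from the properties of the localisation only -/
theorem common_left' {R U : Type} [Ring R] [Ring U] {ι : R →+* U} (hι : Loc ι) {α : Type}
    (y : α → U) (S : Finset α) : ∃ s : R, Nz s ∧ ∀ a ∈ S, ∃ x : R, ι s * y a = ι x := by
  classical
  induction S using Finset.induction_on with
  | empty => exact ⟨1, fun x hx => by rwa [mul_one] at hx, fun a ha => absurd ha (Finset.notMem_empty a)⟩
  | insert a S _ ih =>
    obtain ⟨s, hs, hS⟩ := ih
    obtain ⟨t, z, ht, hz⟩ := hι.left (y a)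
    obtain ⟨ut, hut⟩ := hι.unit t ht
    obtain ⟨s', b', hs', he'⟩ := hι.left (ι s * (↑ut⁻¹ : U))
    have he : s' * s = b' * t := by
      apply hι.inj
      rw [map_mul, map_mul, ← he', ← hut, mul_assoc, mul_assoc, Units.inv_mul, mul_one]
    refine ⟨s' * s, fun x hx => ?_, ?_⟩
    · rw [← mul_assoc] at hx
      exact hs' x (hs _ hx)
    intro b hb
    rcases Finset.mem_insert.mp hb with rfl | hb
    · exact ⟨b' * z, by rw [he, map_mul, mul_assoc, hz, map_mul]⟩
    · obtain ⟨x, hx⟩ := hS b hb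
      exact ⟨s' * x, by rw [map_mul, mul_assoc, hx, map_mul]⟩

variable {G : Type} [Group G]

theorem luck_congr {M M' : Type} [AddCommGroup M] [Module (NG G) M]
    [AddCommGroup M'] [Module (NG G) M'] (f : M ≃ₗ[NG G] M') : luckDim G M = luckDim G M' := by
  unfold luckDim
  refine iSup_congr fun k => iSup_congr fun e => iSup_congr fun he => ?_
  refine iSup_congr_Prop ⟨?_, ?_⟩ (fun _ => rfl)
  · rintro ⟨g, hg⟩
    exact ⟨f.toLinearMap ∘ₗ g, f.injective.comp hg⟩
  · rintro ⟨g, hg⟩
    exact ⟨f.symm.toLinearMap ∘ₗ g, f.symm.injective.comp hg⟩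

/-- torsion modules have dimension zero -/
theorem luck_zero {M : Type} [AddCommGroup M] [Module (NG G) M]
    (h : ∀ x : M, ∃ s : NG G, (∀ y : NG G, s * y = 0 → y = 0) ∧ s • x = 0) : luckDim G M = 0 := by
  unfold luckDim
  rw [← nonpos_iff_eq_zero]
  refine iSup_le fun k => iSup_le fun e => iSup_le fun he => iSup_le ?_
  rintro ⟨f, hf⟩
  have h0 : ∀ i j, e i j = 0 := by
    intro i j
    have hi : (fun j => e i j) ∈ rowMod e := by
      show Matrix.vecMul (fun j => e i j) e = fun j => e i j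
      funext l
      exact congrFun (congrFun he i) l
    obtain ⟨s, hs, hs0⟩ := h (f ⟨fun j => e i j, hi⟩)
    obtain ⟨z, hz⟩ : ∃ z : rowMod e, z = ⟨fun j => e i j, hi⟩ := ⟨_, rfl⟩
    rw [← hz] at hs0
    have h1 : f (s • z) = 0 := (f.map_smul s z).trans hs0
    have h2 : s • z = 0 := hf (h1.trans f.map_zero.symm)
    have h3 : (s • z : rowMod e).1 j = 0 := by rw [h2]; rfl
    rw [hz] at h3
    exact hs _ h3
  have h1 : (∑ i, (tr (e i i)).re) = 0 := by
    refine Finset.sum_eq_zero fun i _ => ?_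
    rw [h0 i i, map_zero, Complex.zero_re]
  rw [h1, ENNReal.ofReal_zero]

theorem canL_zero (x : NG G) (g : G) (h : x * canL g = 0) : x = 0 := by
  have h1 : x * canL g * canL g⁻¹ = x := by
    rw [mul_assoc, ← map_mul, mul_inv_cancel, map_one, mul_one]
  rw [← h1, h, zero_mul]

theorem indep_id' : CosetIndep (RingHom.id (NG G)) (canL : G →* NG G) (MonoidHom.id G).range := by
  intro s hs x hx g hg
  have hsub : s = {g} := by
    rw [Finset.eq_singleton_iff_unique_mem]
    refine ⟨hg, fun h hh => ?_⟩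
    by_contra hne
    refine hs h hh g hg hne ?_
    exact ⟨_, rfl⟩
  rw [hsub, Finset.sum_singleton] at hx
  exact canL_zero _ g hx

theorem mem_SR' {R Γ : Type} [Ring R] [Group Γ] (c : Γ →* R) (x : R) :
    (show Via (RingHom.id R) from x) ∈ SR (RingHom.id R) c := by
  have h1 : (show Via (RingHom.id R) from x) =
      x • (show Via (RingHom.id R) from c (1 : Γ)) := by
    rw [Via.smul_def, map_one, mul_one]
    rfl
  rw [h1]
  exact Submodule.smul_mem _ _ (Submodule.subset_span ⟨1, rfl⟩)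

/-- the homology is a torsion module, if it vanishes over the localisation -/
theorem hr_torsion {R U Γ : Type} [Ring R] [Ring U] [Group Γ] (c : Γ →* R) {ι : R →+* U}
    (hι : Loc ι) {a b d : ℕ} (A : Matrix (Fin a) (Fin b) R) (B : Matrix (Fin b) (Fin d) R)
    (hex : ∀ v : Fin b → U, v ᵥ* B.map ι = 0 → ∃ w : Fin a → U, w ᵥ* A.map ι = v)
    (x : HR (RingHom.id R) c A B) : ∃ s : R, (∀ y, s * y = 0 → y = 0) ∧ s • x = 0 := by
  obtain ⟨⟨v, hv⟩, rfl⟩ := Submodule.Quotient.mk_surjective _ x
  have hv0 : Matrix.vecMul (show Fin b → R from v) B = 0 := hv.2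
  obtain ⟨v', hv'⟩ : ∃ v' : Fin b → R, v' = v := ⟨v, rfl⟩
  have hv1 : Matrix.vecMul v' B = 0 := by rw [hv']; exact hv0
  obtain ⟨w, hw⟩ := hex (fun i => ι (v' i)) (by
    funext l
    have h1 := congrArg ι (congrFun hv1 l)
    rw [Pi.zero_apply, map_zero] at h1
    rw [Pi.zero_apply, ← h1]
    show ∑ i, ι (v' i) * ι (B i l) = ι (∑ i, v' i * B i l)
    rw [map_sum]
    refine Finset.sum_congr rfl fun i _ => ?_
    rw [map_mul])
  obtain ⟨s, hs, hS⟩ := common_left' hι w Finset.univ
  choose w' hw' using fun i => hS i (Finset.mem_univ i)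
  have hs' : ∀ y : R, s * y = 0 → y = 0 := by
    intro y hy
    apply hι.inj
    rw [map_zero]
    have h1 : ι s * ι y = 0 := by rw [← map_mul, hy, map_zero]
    exact (hι.unit s hs).mul_right_eq_zero.1 h1
  refine ⟨s, hs', ?_⟩
  have hkey : ∀ l, s * v' l = Matrix.vecMul w' A l := by
    intro l
    apply hι.inj
    have h1 : ι (v' l) = ∑ i, w i * ι (A i l) := (congrFun hw l).symm
    rw [map_mul, h1, Finset.mul_sum]
    show _ = ι (∑ i, w' i * A i l)
    rw [map_sum]
    refine Finset.sum_congr rfl fun i _ => ?_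
    rw [map_mul, ← hw', ← mul_assoc]
  rw [← Submodule.Quotient.mk_smul, Submodule.Quotient.mk_eq_zero]
  refine ⟨w', fun i _ => mem_SR' c _, ?_⟩
  funext l
  refine (hkey l).symm.trans ?_
  rw [hv']
  rfl

theorem ev_comp {U : Type} [Ring U] (ι : NG G →+* U) (z : MonoidAlgebra ℤ G) :
    V7N.evM ((ι : NG G →* U).comp canL) z = ι (V7N.evM (canL : G →* NG G) z) := by
  have h : V7N.evM ((ι : NG G →* U).comp canL) = ι.comp (V7N.evM (canL : G →* NG G)) := by
    refine MonoidAlgebra.ringHom_ext (fun r => ?_) (fun g => ?_)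
    · simp [V7N.evM]
    · simp [V7N.evM]
  rw [h]
  rfl

theorem map_comp' {U : Type} [Ring U] (ι : NG G →+* U) {a b : ℕ}
    (A : Matrix (Fin a) (Fin b) (MonoidAlgebra ℤ G)) :
    A.map (V7N.evM ((ι : NG G →* U).comp canL)) = (A.map (V7N.evM (canL : G →* NG G))).map ι := by
  ext1 i j
  exact ev_comp ι (A i j)

theorem t_ML2 : U722.FF.S_ML2 := by
  intro G U _ _ ι hι C n hex
  obtain ⟨f⟩ := V7N.v7_succ C n (MonoidHom.id G) Function.injective_id (canL : G →* NG G) canL
    (RingHom.id (NG G)) (fun k => rfl) indep_id'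
  have f' : homN G (n + 1) ≃ₗ[NG G] HR (RingHom.id (NG G)) (canL : G →* NG G)
    ((C.d (n + 1)).map (V7N.evM canL)) ((C.d n).map (V7N.evM canL)) := f
  have h1 : l2Betti G (n + 1) = luckDim G (HR (RingHom.id (NG G)) (canL : G →* NG G)
    ((C.d (n + 1)).map (V7N.evM canL)) ((C.d n).map (V7N.evM canL))) := luck_congr f'
  rw [h1]
  rw [map_comp', map_comp'] at hex
  exact luck_zero fun x => hr_torsion canL hι _ _ hex x

end Pool.Agent.U129.LBP
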